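import Pool.Agent.U810.SW.Main

/-!
Every word of digits stands at least `K √n` times among the first `n` digits of most of the numbers
`x + m √2 / p ^ s`, `m < M`.
-/

set_option autoImplicit false

open Finset

namespace Pool.Agent.Results.MP_175f55_nt.AllWordsSqrt

/-- the `j`-th digit of `y` in base `g` (`j ≥ 1`) -/
noncomputable def digit (g : ℕ) (y : ℝ) (j : ℕ) : ℤ := ⌊y * (g : ℝ) ^ j⌋ % (g : ℤ)

/-- the `(i + 1)`-th, …, `(i + k)`-th digits of `y` in base `g` form the word `w` -/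
def Stands (g k : ℕ) (w : Fin k → Fin g) (y : ℝ) (i : ℕ) : Prop :=
  ∀ j : Fin k, digit g y (i + j + 1) = ((w j : ℕ) : ℤ)

/-- the number of the occurrences of the word `w` in the word of the first `n` digits of `y` -/
noncomputable def count (g k : ℕ) (w : Fin k → Fin g) (y : ℝ) (n : ℕ) : ℕ :=
  {i : ℕ | i + k ≤ n ∧ Stands g k w y i}.ncard

/-- Let `g ≥ 2` and `k ≥ 1`. There are `c, C > 0` such that the following holds for every prime power
`q = p ^ s` with `p ∤ g` and every real root `η` of a polynomial `a X ^ 2 + b X + d` with integer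
coefficients and `p ∤ d`. For every sufficiently large `A` there is `n₀` such that for all `M ≥ A`,
all `n ≥ n₀` and all real `x`, for all but at most `C q ^ (-c) M` of the `m < M`, each of the `g ^ k`
words `w` of `k` digits occurs at least `c √(n log A) / log q` times in the word of the first `n`
digits of `x + m η / q` in base `g`. -/
theorem result (g k : ℕ) (hg : 2 ≤ g) (hk : 1 ≤ k) :
    ∃ c C : ℝ, 0 < c ∧ 0 < C ∧ ∀ p s : ℕ, p.Prime → ¬ p ∣ g → 1 ≤ s →
      ∀ (a b d : ℤ) (η : ℝ), (a : ℝ) * η ^ 2 + b * η + d = 0 → ¬ (p : ℤ) ∣ d →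
      ∃ A₀ : ℕ, ∀ A ≥ A₀, ∃ n₀ : ℕ, ∀ M ≥ A, ∀ n ≥ n₀, ∀ x : ℝ,
        (({m : ℕ | m < M ∧ ∃ w : Fin k → Fin g, (count g k w (x + m * (η / (p : ℝ) ^ s)) n : ℝ) <
          c * Real.sqrt (n * Real.log A) / Real.log ((p : ℝ) ^ s)}.ncard : ℕ) : ℝ) ≤
          C * ((p : ℝ) ^ s) ^ (-c) * M := by
  classical
  have hgR : (2 : ℝ) ≤ g := by exact_mod_cast hg
  have hG2 : 2 ≤ g ^ k := by
    calc 2 ≤ g := hg
      _ = g ^ 1 := (pow_one g).symm
      _ ≤ g ^ k := Nat.pow_le_pow_right (by omega) hk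
  have hG2R : (2 : ℝ) ≤ (g : ℝ) ^ k := by exact_mod_cast hG2
  set G : ℝ := (g : ℝ) ^ k with hG
  have hlg : 0 < Real.log g := Real.log_pos (by linarith)
  have hlG : 0 < Real.log G := Real.log_pos (by linarith)
  have h1G : 0 < 1 - 1 / G := by
    rw [sub_pos, div_lt_one (by linarith)]
    linarith
  have h1G' : 1 / 2 ≤ 1 - 1 / G := by
    have : 1 / G ≤ 1 / 2 := one_div_le_one_div_of_le (by norm_num) hG2R
    linarith
  have h1G1 : 1 - 1 / G < 1 := by
    have : 0 < 1 / G := by positivity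
    linarith
  set c1 := -Real.log (1 - 1 / G) / Real.log G with hc1
  have hc1pos : 0 < c1 := div_pos (neg_pos.2 (Real.log_neg h1G h1G1)) hlG
  set c2 := Real.sqrt (Real.log g) / 42 with hc2
  have hc2pos : 0 < c2 := div_pos (Real.sqrt_pos.2 hlg) (by norm_num)
  refine ⟨min c1 c2, 44 * G, lt_min hc1pos hc2pos, by positivity, ?_⟩
  intro p s hp hpg hs a b d η hη hpd
  have hp2 : (2 : ℝ) ≤ p := by exact_mod_cast hp.two_le
  set q : ℝ := (p : ℝ) ^ s with hq
  have hq2 : 2 ≤ q := by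
    calc (2 : ℝ) ≤ p := hp2
      _ = (p : ℝ) ^ 1 := (pow_one _).symm
      _ ≤ q := pow_le_pow_right₀ (by linarith) hs
  have hlq : 0 < Real.log q := Real.log_pos (by linarith)
  set t := Nat.log (g ^ k) (p ^ s) with ht
  have hqt1 : q < G ^ (t + 1) := by
    have := Nat.lt_pow_succ_log_self (b := g ^ k) (by omega) (p ^ s)
    rw [hq, hG]
    exact_mod_cast this
  have hps0 : p ^ s ≠ 0 := pow_ne_zero _ hp.ne_zero
  have hqt : (g ^ k) ^ t ≤ p ^ s := Nat.pow_log_le_self _ hps0
  have hqtR : G ^ t ≤ q := by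
    rw [hq, hG]
    exact_mod_cast hqt
  have htlog : t * Real.log G ≤ Real.log q := by
    rw [← Real.log_pow]
    exact Real.log_le_log (by positivity) hqtR
  -- the exceptional set
  have hE : 22 * G * (1 - 1 / G) ^ t ≤ 44 * G * q ^ (-(min c1 c2)) := by
    have h1 : (1 - 1 / G) = G ^ (-c1) := by
      rw [Real.rpow_def_of_pos (by linarith), hc1]
      have : Real.log G * -(-Real.log (1 - 1 / G) / Real.log G) = Real.log (1 - 1 / G) := by
        field_simp
      rw [this, Real.exp_log h1G]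
    have h2 : (1 - 1 / G) ^ (t + 1) ≤ q ^ (-c1) := by
      have h3 : (G ^ (-c1)) ^ (t + 1) = (G ^ (t + 1)) ^ (-c1) := by
        rw [← Real.rpow_natCast, ← Real.rpow_mul (by linarith), mul_comm,
          Real.rpow_mul (by linarith), Real.rpow_natCast]
      rw [h1, h3]
      exact Real.rpow_le_rpow_of_nonpos (by linarith) hqt1.le (by linarith)
    have h3 : q ^ (-c1) ≤ q ^ (-(min c1 c2)) :=
      Real.rpow_le_rpow_of_exponent_le (by linarith) (neg_le_neg (min_le_left _ _))
    have h4 : (1 - 1 / G) ^ t ≤ 2 * (1 - 1 / G) ^ (t + 1) := by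
      rw [pow_succ]
      have : 0 < (1 - 1 / G) ^ t := by positivity
      nlinarith
    have h5 : (1 - 1 / G) ^ t ≤ 2 * q ^ (-(min c1 c2)) := by linarith
    have h6 := mul_le_mul_of_nonneg_left h5 (by positivity : (0 : ℝ) ≤ 22 * G)
    linarith
  have hcard : ∀ (M : ℕ) (R : ℕ → Prop), (({m : ℕ | m < M ∧ R m}.ncard : ℕ) : ℝ) =
      (((range M).filter R).card : ℝ) := by
    intro M R
    rw [← Set.ncard_coe_finset]
    congr 2
    ext m
    simp
  rcases Nat.eq_zero_or_pos t with ht0 | ht0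
  · refine ⟨0, fun A _ => ⟨0, fun M _ n _ x => ?_⟩⟩
    rw [hcard]
    have h1 : (((range M).filter (fun m : ℕ => ∃ w : Fin k → Fin g,
        (count g k w (x + m * (η / q)) n : ℝ) <
          min c1 c2 * Real.sqrt (n * Real.log A) / Real.log q)).card : ℝ) ≤ M := by
      have := card_filter_le (range M) (fun m : ℕ => ∃ w : Fin k → Fin g,
        (count g k w (x + m * (η / q)) n : ℝ) <
          min c1 c2 * Real.sqrt (n * Real.log A) / Real.log q)
      rw [card_range] at this
      exact_mod_cast this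
    rw [ht0, pow_zero, mul_one] at hE
    have hM0 : (0 : ℝ) ≤ M := Nat.cast_nonneg _
    have h2 : (1 : ℝ) ≤ 44 * G * q ^ (-(min c1 c2)) := by linarith
    have h3 : (M : ℝ) ≤ 44 * G * q ^ (-(min c1 c2)) * M := le_mul_of_one_le_left hM0 h2
    refine le_trans (le_of_eq ?_) (h1.trans h3)
    congr!
  obtain ⟨D, hD, L₀, hmain⟩ := Pool.Agent.U810.SW.main hg hk hp hpg hη hpd ht0 hqt
  refine ⟨2 * D * g ^ (L₀ + 2 * D + 1), fun A hA => ?_⟩
  set L := Nat.log g (A / (2 * D)) with hL
  have hAD : g ^ (L₀ + 2 * D + 1) ≤ A / (2 * D) := by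
    rw [Nat.le_div_iff_mul_le (by omega), mul_comm]
    exact hA
  have hAD0 : A / (2 * D) ≠ 0 := by
    have : 0 < g ^ (L₀ + 2 * D + 1) := by positivity
    omega
  have hL1 : L₀ + 2 * D + 1 ≤ L := Nat.le_log_of_pow_le (by omega) hAD
  have hL2 : 2 * D * g ^ L ≤ A := by
    have h1 := Nat.pow_log_le_self g hAD0
    rw [← hL] at h1
    calc 2 * D * g ^ L ≤ 2 * D * (A / (2 * D)) := Nat.mul_le_mul_left _ h1
      _ ≤ A := Nat.mul_div_le _ _
  have hL3 : A < 2 * D * g ^ (L + 1) := by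
    have h1 := Nat.lt_pow_succ_log_self (b := g) (by omega) (A / (2 * D))
    rw [← hL, Nat.div_lt_iff_lt_mul (by omega), mul_comm] at h1
    exact h1
  have hA1 : 1 ≤ A := by
    have : 0 < 2 * D * g ^ L := by positivity
    omega
  have hlA : Real.log A ≤ 3 * (L * Real.log g) := by
    have h1 : (A : ℝ) ≤ (g : ℝ) ^ (2 * L + 1) := by
      have h2 : 2 * D ≤ g ^ L := by
        have h3 : L < g ^ L := Nat.lt_pow_self (by omega)
        omega
      have h4 : A ≤ g ^ (2 * L + 1) := by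
        calc A ≤ 2 * D * g ^ (L + 1) := hL3.le
          _ ≤ g ^ L * g ^ (L + 1) := Nat.mul_le_mul_right _ h2
          _ = g ^ (2 * L + 1) := by ring
      exact_mod_cast h4
    have h2 := Real.log_le_log (by exact_mod_cast hA1) h1
    rw [Real.log_pow] at h2
    push_cast at h2
    have h3 : (1 : ℝ) ≤ L := by
      have : 1 ≤ L := by omega
      exact_mod_cast this
    nlinarith
  have hlA0 : 0 ≤ Real.log A := Real.log_natCast_nonneg A
  obtain ⟨n₀, hn₀⟩ := hmain L (by omega)
  refine ⟨n₀, fun M hM n hn x => ?_⟩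
  have h1 := hn₀ M (hL2.trans hM) n hn x
  rw [hcard]
  have hsub : (range M).filter (fun m : ℕ => ∃ w : Fin k → Fin g,
        (count g k w (x + m * (η / q)) n : ℝ) <
          min c1 c2 * Real.sqrt (n * Real.log A) / Real.log q) ⊆
      (range M).filter (fun m : ℕ => ∃ w : Fin k → Fin g,
        ¬ (L * n ≤ 576 * t ^ 2 * (Pool.Agent.U810.SW.count g k w (x + m * (η / q)) n) ^ 2)) := by
    intro m hm
    obtain ⟨hmM, w, hw⟩ := mem_filter.1 hm
    refine mem_filter.2 ⟨hmM, w, fun hcon => ?_⟩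
    apply absurd hw
    push Not
    have hce : Pool.Agent.U810.SW.count g k w (x + m * (η / q)) n =
        count g k w (x + m * (η / q)) n := rfl
    rw [hce] at hcon
    set κ := count g k w (x + m * (η / q)) n with hκ
    have h2 : (L : ℝ) * n ≤ 576 * t ^ 2 * κ ^ 2 := by exact_mod_cast hcon
    have h3 : min c1 c2 * Real.sqrt (n * Real.log A) ≤ c2 * Real.sqrt (n * Real.log A) :=
      mul_le_mul_of_nonneg_right (min_le_right _ _) (Real.sqrt_nonneg _)
    rw [div_le_iff₀ hlq]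
    refine h3.trans ?_
    have hκ0 : (0 : ℝ) ≤ κ := Nat.cast_nonneg _
    have hn0 : (0 : ℝ) ≤ n := Nat.cast_nonneg _
    have ht0R : (0 : ℝ) ≤ t := Nat.cast_nonneg _
    have hlgG : Real.log g ≤ Real.log G := by
      apply Real.log_le_log (by linarith)
      calc (g : ℝ) = (g : ℝ) ^ 1 := (pow_one _).symm
        _ ≤ G := pow_le_pow_right₀ (by linarith) hk
    have h4 : t * Real.log g ≤ Real.log q :=
      (mul_le_mul_of_nonneg_left hlgG ht0R).trans htlog
    have h5 : (t * Real.log g) ^ 2 ≤ Real.log q ^ 2 := pow_le_pow_left₀ (by positivity) h4 2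
    rw [← pow_le_pow_iff_left₀ (by positivity) (by positivity) two_ne_zero, mul_pow,
      Real.sq_sqrt (by positivity), hc2, div_pow, Real.sq_sqrt hlg.le]
    have h6 : (n : ℝ) * Real.log A ≤ 3 * Real.log g * (L * n) := by
      have := mul_le_mul_of_nonneg_left hlA hn0
      linarith
    have h7 : 3 * Real.log g * (L * n) ≤ 3 * Real.log g * (576 * t ^ 2 * κ ^ 2) :=
      mul_le_mul_of_nonneg_left h2 (by positivity)
    have h8 : Real.log g / 42 ^ 2 * (n * Real.log A) ≤
        Real.log g / 42 ^ 2 * (3 * Real.log g * (576 * t ^ 2 * κ ^ 2)) :=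
      mul_le_mul_of_nonneg_left (h6.trans h7) (by positivity)
    have h9 : Real.log g / 42 ^ 2 * (3 * Real.log g * (576 * t ^ 2 * κ ^ 2)) =
        1728 / 1764 * ((t * Real.log g) ^ 2 * κ ^ 2) := by ring
    have h10 : (t * Real.log g) ^ 2 * (κ : ℝ) ^ 2 ≤ Real.log q ^ 2 * κ ^ 2 :=
      mul_le_mul_of_nonneg_right h5 (by positivity)
    have h11 : (0 : ℝ) ≤ Real.log q ^ 2 * κ ^ 2 := by positivity
    have h12 : ((κ : ℝ) * Real.log q) ^ 2 = Real.log q ^ 2 * κ ^ 2 := by ring
    rw [h12]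
    linarith
  have h2 := (Nat.cast_le (α := ℝ)).2 (card_le_card hsub)
  refine le_trans (le_of_eq (by congr!)) (h2.trans ?_)
  have h3 : (((range M).filter (fun m : ℕ => ∃ w : Fin k → Fin g,
        ¬ (L * n ≤ 576 * t ^ 2 * (Pool.Agent.U810.SW.count g k w
          (x + m * (η / q)) n) ^ 2))).card : ℝ) ≤ 22 * G * (1 - 1 / G) ^ t * M := by
    refine (le_of_eq ?_).trans h1
    congr!
  exact h3.trans (mul_le_mul_of_nonneg_right hE (Nat.cast_nonneg _))

end Pool.Agent.Results.MP_175f55_nt.AllWordsSqrt
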