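import Pool.Agent.U433.RL.Cols

/-!
# The extreme value law for the longest runs of the digits of multiples of algebraic irrationals

Let `x_1, …, x_r` be real numbers and write the `N` digits of `x_j` in base `b_j` which follow the first
`s_j` digits after the point into row `j` of a matrix with `N` columns (`r = 1`: `N` consecutive digits
of one number). For each possible column `c` (there are `B = b_1 ⋯ b_r`) let `R_c` be the length of the
longest block of consecutive columns equal to `c`. For `x = Ω m + y` with algebraic numbers `Ω` (for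
instance `r = 1`, `x = m √2`), a random `m ∈ {1, …, M}^d`, and all windows with `s_j + N ≤ A log M` we
prove, as `N → ∞`, that the `B` numbers `R_c` are asymptotically independent with
`P(R_c < l) = exp (-(1 - 1/B) N / B^l) + o(1)`, uniformly in the lengths `l`, `y` and the window:
a Gumbel law for `R_c - log_B ((1 - 1/B) N)`, up to the rounding.

Only the order of magnitude `log_B N` of the longest run was known for these numbers (for all but `ε M`
of the `m`), and the Poisson law for words which do not overlap themselves; the words `c c … c` are the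
worst case of self-overlap.

Proof. A run of at least `l_c` columns `c` which does not begin with the window is an occurrence of one
of the words `a c ⋯ c u` with `a ≠ c` and any word `u` of length `H - l_c`, where `H = max l_c`. If the
lengths are close to `log_B N`, these words (for all `c` together) do not overlap themselves or each
other in more than half of their length, so the Poisson law of the starting library (`N639.FG.cg3`)
applies. The other lengths follow by comparison.
-/

set_option autoImplicit false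

namespace Pool.Agent.Results.MP_175f55_nt.LongestRunLaw

open Finset Real

variable {r d : ℕ}

/-- the digit in base `b` of `x` which follows the first `n` digits after the point -/
noncomputable def digit (b n : ℕ) (x : ℝ) : ℕ := ⌊(b : ℝ) * Int.fract ((b : ℝ) ^ n * x)⌋₊

/-- inside the `N` columns of digits which follow the first `s j` digits after the point of `x j` there
is a block of `l` consecutive columns equal to `c` -/
def Block (b s : Fin r → ℕ) (N l : ℕ) (c : Fin r → ℕ) (x : Fin r → ℝ) : Prop :=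
  ∃ n, n + l ≤ N ∧ ∀ i < l, ∀ j, digit (b j) (s j + (n + i)) (x j) = c j

/-- the length of the longest block of consecutive columns equal to `c` -/
noncomputable def longest (b s : Fin r → ℕ) (N : ℕ) (c : Fin r → ℕ) (x : Fin r → ℝ) : ℕ :=
  sSup {l | Block b s N l c x}

/-- the possible columns of digits -/
def cols (b : Fin r → ℕ) : Finset (Fin r → ℕ) := Fintype.piFinset fun j => range (b j)

/-- the vectors `Ω m + y` -/
noncomputable def point (Ω : Fin r → Fin d → ℝ) (y : Fin r → ℝ) (m : Fin d → ℕ) : Fin r → ℝ :=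
  fun j => ∑ t, m t * Ω j t + y j

open Classical in
/-- the proportion of the `m ∈ {1, …, M}^d` for which `Ω m + y` has the property `Q` -/
noncomputable def prop (Ω : Fin r → Fin d → ℝ) (y : Fin r → ℝ) (M : ℕ)
    (Q : (Fin r → ℝ) → Prop) : ℝ :=
  (((Fintype.piFinset fun _ : Fin d => Icc 1 M).filter fun m => Q (point Ω y m)).card : ℝ) /
    (M : ℝ) ^ d

lemma block_anti {b s : Fin r → ℕ} {N l l' : ℕ} {c : Fin r → ℕ} {x : Fin r → ℝ} (h : l' ≤ l)
    (hB : Block b s N l c x) : Block b s N l' c x := by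
  obtain ⟨n, hn, hi⟩ := hB
  exact ⟨n, by omega, fun i hi' => hi i (by omega)⟩

lemma longest_lt_iff {b s : Fin r → ℕ} {N l : ℕ} {c : Fin r → ℕ} {x : Fin r → ℝ} :
    longest b s N c x < l ↔ ¬ Block b s N l c x := by
  have hbdd : BddAbove {l | Block b s N l c x} := ⟨N, fun l hl => by
    obtain ⟨n, hn, _⟩ := hl
    omega⟩
  have hne : {l | Block b s N l c x}.Nonempty := ⟨0, 0, by omega, fun i hi => absurd hi (by omega)⟩
  constructor
  · intro h hB
    exact absurd (le_csSup hbdd hB) (not_le.2 h)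
  · intro h
    by_contra hcon
    push Not at hcon
    exact h (block_anti hcon (Nat.sSup_mem hne hbdd))

lemma prop_congr {Ω : Fin r → Fin d → ℝ} {y : Fin r → ℝ} {M : ℕ} {Q Q' : (Fin r → ℝ) → Prop}
    (h : ∀ x, Q x ↔ Q' x) : prop Ω y M Q = prop Ω y M Q' := by
  have : Q = Q' := funext fun x => propext (h x)
  rw [this]

lemma prop_zero {Ω : Fin r → Fin d → ℝ} {y : Fin r → ℝ} {M : ℕ} {Q : (Fin r → ℝ) → Prop}
    (h : ∀ x, ¬ Q x) : prop Ω y M Q = 0 := by
  simp [prop, h]

/-- Let the `Ω j t` be algebraic and let each nonzero integer combination of the rows of `Ω` have an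
irrational entry; `b j ≥ 2`, `B = ∏ b j`, `A, ε > 0`. For `N ≥ N₀` and `M ≥ M₀`, for all `y`, all
windows with `s j + N ≤ A log M` and with the proportion of the `m ∈ {1, …, M}^d`:
(1) `|P (R_c < l_c for all c) - ∏ exp (-(1 - 1/B) N / B ^ l_c)| ≤ ε` for all lengths `l_c`;
(2) `∏ exp (-B ^ (-t_c)) - ε ≤ P (R_c ≤ log_B ((1 - 1/B) N) + t_c for all c) ≤
∏ exp (-B ^ (-t_c - 1)) + ε` for all real numbers `t_c`. -/
theorem result (hr : 1 ≤ r) (Ω : Fin r → Fin d → ℝ) (halg : ∀ j t, IsAlgebraic ℚ (Ω j t))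
    (hind : ∀ k : Fin r → ℤ, k ≠ 0 → ∃ t, Irrational (∑ j, k j * Ω j t)) (b : Fin r → ℕ)
    (hb : ∀ j, 2 ≤ b j) (B : ℕ) (hB : B = ∏ j, b j) (A ε : ℝ) (hA : 0 < A) (hε : 0 < ε) :
    ∃ N₀ M₀ : ℕ, ∀ M : ℕ, M₀ ≤ M → ∀ (y : Fin r → ℝ) (s : Fin r → ℕ) (N : ℕ), N₀ ≤ N →
      (∀ j, (s j : ℝ) + N ≤ A * log M) →
      (∀ l : (Fin r → ℕ) → ℕ,
        |prop Ω y M (fun x => ∀ c ∈ cols b, longest b s N c x < l c) -
          ∏ c ∈ cols b, exp (-((1 - 1 / (B : ℝ)) * N / (B : ℝ) ^ l c))| ≤ ε) ∧
      (∀ t : (Fin r → ℕ) → ℝ,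
        ∏ c ∈ cols b, exp (-(B : ℝ) ^ (-t c)) - ε ≤
          prop Ω y M (fun x => ∀ c ∈ cols b,
            (longest b s N c x : ℝ) ≤ logb B ((1 - 1 / (B : ℝ)) * N) + t c) ∧
        prop Ω y M (fun x => ∀ c ∈ cols b,
            (longest b s N c x : ℝ) ≤ logb B ((1 - 1 / (B : ℝ)) * N) + t c) ≤
          ∏ c ∈ cols b, exp (-(B : ℝ) ^ (-t c - 1)) + ε) := by
  have hB2 : 2 ≤ B := by rw [hB]; exact Pool.Agent.N639.FH.two_le_prod hr hb
  have hBR : (2 : ℝ) ≤ B := by exact_mod_cast hB2
  obtain ⟨N₁, h1⟩ := Pool.Agent.U433.RL.block_law hr Ω halg hind hb hA hε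
  obtain ⟨M₀, h2⟩ := Filter.eventually_atTop.1 h1
  obtain ⟨N₂, hN₂⟩ := exists_nat_ge (2 * log (1 / ε))
  refine ⟨N₁ + N₂ + 1, M₀, fun M hM y s N hN hsN => ?_⟩
  have key := h2 M hM y s N (by omega) hsN
  have hNp : (0 : ℝ) < N := by
    have : 0 < N := by omega
    exact_mod_cast this
  have part1 : ∀ l : (Fin r → ℕ) → ℕ,
      |prop Ω y M (fun x => ∀ c ∈ cols b, longest b s N c x < l c) -
        ∏ c ∈ cols b, exp (-((1 - 1 / (B : ℝ)) * N / (B : ℝ) ^ l c))| ≤ ε := by
    classical
    intro l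
    have h3 := key l
    have h4 : ∏ c ∈ cols b, exp (-((1 - 1 / (B : ℝ)) * N / (B : ℝ) ^ l c)) =
        exp (-∑ c ∈ cols b, (1 - 1 / (B : ℝ)) * (N / (B : ℝ) ^ l c)) := by
      rw [← exp_sum, ← sum_neg_distrib]
      congr 1
      exact sum_congr rfl fun c _ => by ring
    rw [h4, prop_congr (Q' := fun x => ∀ c ∈ cols b, ¬ Block b s N (l c) c x)
      (fun x => forall₂_congr fun c _ => longest_lt_iff)]
    subst hB
    have h5 : ((Fintype.piFinset fun _ : Fin d => Icc 1 M).filter fun m =>
          ∀ c ∈ cols b, ¬ Block b s N (l c) c (point Ω y m)).card =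
        ((Pool.Agent.Y933.KD.box d M).filter fun m => ∀ c ∈ Pool.Agent.U433.RL.cols b,
          ¬ Pool.Agent.U433.RL.Block b s N (l c) c (Pool.Agent.Y951.TU.comb Ω y m)).card := rfl
    have h6 : prop Ω y M (fun x => ∀ c ∈ cols b, ¬ Block b s N (l c) c x) =
        (((Fintype.piFinset fun _ : Fin d => Icc 1 M).filter fun m =>
          ∀ c ∈ cols b, ¬ Block b s N (l c) c (point Ω y m)).card : ℝ) / (M : ℝ) ^ d := by
      unfold prop
      congr!
    rw [h6, h5]
    exact h3
  refine ⟨part1, fun t => ?_⟩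
  set q : ℝ := (1 - 1 / (B : ℝ)) * N with hq
  have hq0 : N / 2 ≤ q := by
    have : 1 / (B : ℝ) ≤ 1 / 2 := one_div_le_one_div_of_le (by norm_num) hBR
    rw [hq]
    nlinarith
  have hqp : 0 < q := by linarith
  have hpow : (B : ℝ) ^ (logb B q) = q := rpow_logb (by linarith) (by linarith) hqp
  have hnn : 0 ≤ prop Ω y M (fun x => ∀ c ∈ cols b, (longest b s N c x : ℝ) ≤ logb B q + t c) := by
    unfold prop
    positivity
  by_cases hneg : ∃ c ∈ cols b, logb B q + t c < 0
  · obtain ⟨c, hc, hct⟩ := hneg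
    have h3 : prop Ω y M (fun x => ∀ c ∈ cols b, (longest b s N c x : ℝ) ≤ logb B q + t c) = 0 := by
      refine prop_zero fun x h6 => ?_
      have h6 := h6 c hc
      have h7 : (0 : ℝ) ≤ longest b s N c x := Nat.cast_nonneg _
      linarith
    rw [h3]
    have h5 : ∏ c ∈ cols b, exp (-(B : ℝ) ^ (-t c)) ≤ ε := by
      rw [← exp_sum]
      have h6 : ∑ c ∈ cols b, -(B : ℝ) ^ (-t c) ≤ -(B : ℝ) ^ (-t c) := by
        rw [sum_neg_distrib, neg_le_neg_iff]
        exact single_le_sum (f := fun c => (B : ℝ) ^ (-t c)) (fun i _ => by positivity) hc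
      have h7 : q ≤ (B : ℝ) ^ (-t c) := by
        conv_lhs => rw [← hpow]
        exact rpow_le_rpow_of_exponent_le (by linarith) (by linarith)
      have h8 : log (1 / ε) ≤ q := by
        have h9 : (N₂ : ℝ) ≤ N := by
          have : N₂ ≤ N := by omega
          exact_mod_cast this
        linarith
      calc exp (∑ c ∈ cols b, -(B : ℝ) ^ (-t c)) ≤ exp (-log (1 / ε)) :=
            exp_le_exp.2 (by linarith)
        _ = ε := by rw [exp_neg, exp_log (by positivity)]; simp
    refine ⟨by linarith, ?_⟩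
    have h6 : 0 ≤ ∏ c ∈ cols b, exp (-(B : ℝ) ^ (-t c - 1)) :=
      prod_nonneg fun c _ => (exp_pos _).le
    linarith
  · push Not at hneg
    set l : (Fin r → ℕ) → ℕ := fun c => ⌊logb B q + t c⌋₊ + 1 with hl
    have h3 := part1 l
    have h4 : prop Ω y M (fun x => ∀ c ∈ cols b, longest b s N c x < l c) =
        prop Ω y M (fun x => ∀ c ∈ cols b, (longest b s N c x : ℝ) ≤ logb B q + t c) := by
      refine prop_congr fun x => forall₂_congr fun c hc => ?_
      rw [hl]
      simp only
      rw [Nat.lt_succ_iff, Nat.le_floor_iff (hneg c hc)]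
    rw [h4] at h3
    have h5 : ∀ c ∈ cols b, q / (B : ℝ) ^ l c ≤ (B : ℝ) ^ (-t c) ∧
        (B : ℝ) ^ (-t c - 1) ≤ q / (B : ℝ) ^ l c := by
      intro c hc
      have h6 : q / (B : ℝ) ^ l c = (B : ℝ) ^ (logb B q - l c) := by
        rw [rpow_sub (by linarith), hpow, rpow_natCast]
      have h7 := Nat.lt_floor_add_one (logb B q + t c)
      have h8 := Nat.floor_le (hneg c hc)
      have h9 : (l c : ℝ) = ⌊logb B q + t c⌋₊ + 1 := by
        rw [hl]
        push_cast
        rfl
      rw [h6]
      refine ⟨rpow_le_rpow_of_exponent_le (by linarith) (by rw [h9]; linarith),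
        rpow_le_rpow_of_exponent_le (by linarith) (by rw [h9]; linarith)⟩
    have h6 : ∏ c ∈ cols b, exp (-(B : ℝ) ^ (-t c)) ≤
        ∏ c ∈ cols b, exp (-(q / (B : ℝ) ^ l c)) :=
      prod_le_prod (fun c _ => (exp_pos _).le) fun c hc =>
        exp_le_exp.2 (neg_le_neg (h5 c hc).1)
    have h7 : ∏ c ∈ cols b, exp (-(q / (B : ℝ) ^ l c)) ≤
        ∏ c ∈ cols b, exp (-(B : ℝ) ^ (-t c - 1)) :=
      prod_le_prod (fun c _ => (exp_pos _).le) fun c hc =>
        exp_le_exp.2 (neg_le_neg (h5 c hc).2)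
    rw [abs_le] at h3
    constructor <;> linarith [h3.1, h3.2]

end Pool.Agent.Results.MP_175f55_nt.LongestRunLaw
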