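import Pool.Agent.U792.ND.Fin

/-!
# The number of nonzero digits of quadratic irrationals

Let `ξ` be a real irrational with `A ξ^2 + B ξ + C = 0`, `A ≥ 1`, and let `b ≥ 2`.  For every `ε > 0`
and every large `n`, at least `(√(11 / (5 J)) - ε) √n` of the first `n` digits of `ξ` in base `b` are
nonzero, and at least as many differ from `b - 1`; here
`J = ⌊log_b ((2 A / gcd (b, 2 A)) (b - 1)^2 + b - 1)⌋`, which is `2 / gcd (b, 2)` when `A = 1`.
For `√d` the bound for the nonzero digits holds with a bounded error.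
-/

set_option autoImplicit false
set_option linter.unusedSectionVars false

open Finset

namespace Pool.Agent.Results.MP_175f55_nt.NonzeroDigits

open Pool.Agent.H394R2.Ones Pool.Agent.U792.ND

/-- the integer part of the logarithm to the base `b` of `(2 A / gcd (b, 2 A)) (b - 1)^2 + b - 1` -/
def J (b A : ℕ) : ℕ := Nat.log b (2 * A / Nat.gcd b (2 * A) * (b - 1) ^ 2 + (b - 1))

/-- the number of the first `n` digits of `ξ` in base `b` that differ from `a` -/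
noncomputable def N (b : ℕ) (ξ : ℝ) (a : ℤ) (n : ℕ) : ℕ :=
  ((range n).filter (fun k => ⌊ξ * (b : ℝ) ^ (k + 1)⌋ % (b : ℤ) ≠ a)).card

lemma J_one {b : ℕ} (hb : 2 ≤ b) : J b 1 = 2 / Nat.gcd b 2 := by
  unfold J
  rw [mul_one]
  obtain ⟨c, rfl⟩ : ∃ c, b = c + 2 := ⟨b - 2, by omega⟩
  have h1 : c + 2 - 1 = c + 1 := by omega
  rw [h1]
  rcases Nat.even_or_odd c with h | h
  · have hg : Nat.gcd (c + 2) 2 = 2 := by
      apply Nat.gcd_eq_right
      obtain ⟨t, rfl⟩ := h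
      exact ⟨t + 1, by ring⟩
    rw [hg]
    norm_num
    rw [Nat.log_eq_iff (Or.inl one_ne_zero)]
    constructor
    · nlinarith
    · ring_nf; nlinarith
  · have hg : Nat.gcd (c + 2) 2 = 1 := by
      rw [← Nat.coprime_iff_gcd_eq_one, Nat.coprime_two_right]
      obtain ⟨t, rfl⟩ := h
      exact ⟨t + 1, by ring⟩
    have hc : 1 ≤ c := h.pos
    rw [hg]
    norm_num
    rw [Nat.log_eq_iff (Or.inl two_ne_zero)]
    constructor
    · nlinarith
    · ring_nf; nlinarith [Nat.zero_le (c ^ 3), Nat.zero_le (c ^ 2)]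

/-- counting the nonzero digits of the fractional part -/
lemma kk_eq {b : ℕ} (hb : 2 ≤ b) {ξ : ℝ} (hirr : Irrational ξ) (n : ℕ) :
    kk b (Int.fract ξ) n = N b ξ 0 n := by
  set y : ℝ := Int.fract ξ with hy
  have hξ : ξ = ⌊ξ⌋ + y := (Int.floor_add_fract ξ).symm
  have hyirr : Irrational y := by
    have : y = ξ - (⌊ξ⌋ : ℤ) := rfl
    rw [this]
    exact hirr.sub_intCast _
  have hy0 : 0 < y := lt_of_le_of_ne (Int.fract_nonneg ξ) (Ne.symm hyirr.ne_zero)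
  have hy1 : y < 1 := Int.fract_lt_one ξ
  have hdig : ∀ k : ℕ, ⌊ξ * (b : ℝ) ^ (k + 1)⌋ % (b : ℤ) = (x b y (k + 1) : ℤ) := by
    intro k
    have h1 : ξ * (b : ℝ) ^ (k + 1) = ((⌊ξ⌋ * (b : ℤ) ^ (k + 1) : ℤ) : ℝ) +
        y * (b : ℝ) ^ (k + 1) := by
      nth_rewrite 1 [hξ]
      push_cast
      ring
    rw [h1, Int.floor_intCast_add]
    unfold x B
    push_cast
    rw [Int.natCast_floor_eq_floor (by positivity)]
    rw [show ⌊ξ⌋ * (b : ℤ) ^ (k + 1) + ⌊y * (b : ℝ) ^ (k + 1)⌋ =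
      ⌊y * (b : ℝ) ^ (k + 1)⌋ + (b : ℤ) * (⌊ξ⌋ * (b : ℤ) ^ k) by ring, Int.add_mul_emod_self_left]
  unfold N kk
  rw [sum_range_succ', card_filter]
  have h0 : nz b y 0 = 0 := by
    unfold nz
    rw [x_zero hy0 hy1]
    norm_num
  rw [h0, add_zero]
  refine sum_congr rfl fun k _ => ?_
  rw [hdig]
  unfold nz
  by_cases h : 1 ≤ x b y (k + 1)
  · rw [if_pos h, if_pos]
    exact_mod_cast (by omega : x b y (k + 1) ≠ 0)
  · rw [if_neg h, if_neg]
    push Not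
    exact_mod_cast (by omega : x b y (k + 1) = 0)

/-- digits of the negative -/
lemma N_neg {b : ℕ} (hb : 2 ≤ b) {ξ : ℝ} (hirr : Irrational ξ) (n : ℕ) :
    N b (-ξ) 0 n = N b ξ (b - 1) n := by
  unfold N
  congr 1
  refine filter_congr fun k _ => ?_
  have hb0 : (0 : ℤ) < b := by exact_mod_cast (by omega : 0 < b)
  have h1 : ⌊-ξ * (b : ℝ) ^ (k + 1)⌋ = -⌊ξ * (b : ℝ) ^ (k + 1)⌋ - 1 := by
    rw [neg_mul, Int.floor_neg]
    have h2 : ⌈ξ * (b : ℝ) ^ (k + 1)⌉ = ⌊ξ * (b : ℝ) ^ (k + 1)⌋ + 1 := by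
      rw [Int.ceil_eq_iff]
      push_cast
      constructor
      · have h3 : (⌊ξ * (b : ℝ) ^ (k + 1)⌋ : ℝ) ≤ ξ * (b : ℝ) ^ (k + 1) := Int.floor_le _
        refine lt_of_le_of_ne (by linarith) ?_
        intro h4
        have h5 : Irrational (ξ * ((b ^ (k + 1) : ℕ) : ℝ)) := by
          apply hirr.mul_natCast
          positivity
        apply h5
        refine ⟨(⌊ξ * (b : ℝ) ^ (k + 1)⌋ : ℚ), ?_⟩
        push_cast
        linarith
      · exact (Int.lt_floor_add_one _).le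
    rw [h2]
    ring
  rw [h1]
  set f := ⌊ξ * (b : ℝ) ^ (k + 1)⌋
  have h2 := Int.emod_nonneg f hb0.ne'
  have h3 := Int.emod_lt_of_pos f hb0
  have h4 := Int.emod_add_mul_ediv f b
  constructor
  · intro h h5
    apply h
    apply Int.emod_eq_zero_of_dvd
    refine ⟨-(f / b) - 1, ?_⟩
    linarith
  · intro h h5
    apply h
    obtain ⟨q, hq⟩ := Int.dvd_of_emod_eq_zero h5
    have h6 : (b : ℤ) * (f / b + 1 + q) = b - 1 - f % b := by linarith
    have h7 : 0 ≤ (f / b + 1 + q) := by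
      by_contra hcon
      have : (b : ℤ) * (f / b + 1 + q) ≤ b * (-1) :=
        mul_le_mul_of_nonneg_left (by omega) hb0.le
      linarith
    have h8 : (f / b + 1 + q) < 1 := by
      by_contra hcon
      have : (b : ℤ) * 1 ≤ b * (f / b + 1 + q) :=
        mul_le_mul_of_nonneg_left (by omega) hb0.le
      linarith
    have h9 : f / b + 1 + q = 0 := by omega
    rw [h9, mul_zero] at h6
    linarith

/-- nonzero digits of real quadratic irrationals -/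
lemma nonzero {b : ℕ} (hb : 2 ≤ b) {A : ℕ} {Bc C : ℤ} (hA : 1 ≤ A) {ξ : ℝ}
    (hirr : Irrational ξ) (hq : (A : ℝ) * ξ ^ 2 + Bc * ξ + C = 0) (ε : ℝ) (hε : 0 < ε) :
    ∃ n0 : ℕ, ∀ n : ℕ, n0 ≤ n →
      (Real.sqrt (11 / (5 * (J b A : ℝ))) - ε) * Real.sqrt n ≤ N b ξ 0 n := by
  have hξ : ξ = ⌊ξ⌋ + Int.fract ξ := (Int.floor_add_fract ξ).symm
  have hyirr : Irrational (Int.fract ξ) := by
    have : Int.fract ξ = ξ - (⌊ξ⌋ : ℤ) := rfl
    rw [this]
    exact hirr.sub_intCast _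
  have hy0 : 0 < Int.fract ξ := lt_of_le_of_ne (Int.fract_nonneg ξ) (Ne.symm hyirr.ne_zero)
  have hy1 : Int.fract ξ < 1 := Int.fract_lt_one ξ
  have hq' : (A : ℝ) * (Int.fract ξ) ^ 2 + ((Bc + 2 * A * ⌊ξ⌋ : ℤ) : ℝ) * Int.fract ξ +
      ((C + Bc * ⌊ξ⌋ + A * ⌊ξ⌋ ^ 2 : ℤ) : ℝ) = 0 := by
    have h1 : (A : ℝ) * (⌊ξ⌋ + Int.fract ξ) ^ 2 + Bc * (⌊ξ⌋ + Int.fract ξ) + C = 0 := by
      rw [← hξ]; exact hq
    push_cast
    linarith
  obtain ⟨n0, hn0⟩ := quad_nd hb hy0 hy1 hyirr hA hq' ε hε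
  refine ⟨n0, fun n hn => ?_⟩
  have h1 := hn0 n hn
  rw [kk_eq hb hirr] at h1
  exact h1

/-- nonzero digits of square roots -/
lemma nonzero_sqrt {b d : ℕ} (hb : 2 ≤ b) (hd : ¬ IsSquare d) :
    ∃ C : ℝ, ∀ n : ℕ, Real.sqrt (11 / (5 * (J b 1 : ℝ))) * Real.sqrt n - C ≤
      N b (Real.sqrt d) 0 n := by
  have hbR : (2 : ℝ) ≤ b := by exact_mod_cast hb
  have hb0 : (0 : ℝ) < b := by linarith
  have hirr : Irrational (Real.sqrt d) := by
    rw [irrational_sqrt_natCast_iff]; exact hd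
  have hd0 : 0 < d := by
    rcases Nat.eq_zero_or_pos d with h | h
    · exact absurd ⟨0, by simp [h]⟩ hd
    · exact h
  have hsd : 0 < Real.sqrt d := Real.sqrt_pos.mpr (by exact_mod_cast hd0)
  set t := d with ht
  have hbt : Real.sqrt d < (b : ℝ) ^ t := by
    have h1 : Real.sqrt d ≤ d := by
      rw [Real.sqrt_le_left (Nat.cast_nonneg _)]
      have : (1 : ℝ) ≤ d := by exact_mod_cast hd0
      nlinarith
    have h2 : (d : ℝ) < (b : ℝ) ^ t := by
      have : d < b ^ d := Nat.lt_pow_self (by omega)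
      exact_mod_cast this
    linarith
  set y : ℝ := Real.sqrt d / (b : ℝ) ^ t with hy
  have hbt0 : (0 : ℝ) < (b : ℝ) ^ t := by positivity
  have hy0 : 0 < y := div_pos hsd hbt0
  have hy1 : y < 1 := by rw [hy, div_lt_one hbt0]; exact hbt
  have hyi : Irrational y := by
    rw [hy]
    have : Irrational (Real.sqrt d / ((b ^ t : ℕ) : ℝ)) := hirr.div_natCast (by positivity)
    exact_mod_cast this
  have hs : ∃ D : ℤ, y ^ 2 * (b : ℝ) ^ (2 * t) = D := by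
    refine ⟨d, ?_⟩
    rw [hy, div_pow, Real.sq_sqrt (Nat.cast_nonneg _), mul_comm 2 t, pow_mul]
    field_simp
    norm_cast
  have hdig : ∀ k, (x b y (t + k) : ℤ) = ⌊Real.sqrt d * (b : ℝ) ^ k⌋ % (b : ℤ) := by
    intro k
    have h1 : y * (b : ℝ) ^ (t + k) = Real.sqrt d * (b : ℝ) ^ k := by
      rw [hy, pow_add]
      field_simp
    unfold x B
    push_cast
    rw [Int.natCast_floor_eq_floor (by positivity), h1]
  obtain ⟨C, hC⟩ := pure_nd hb hy0 hy1 hyi hs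
  refine ⟨C + (t + 1), fun n => ?_⟩
  have h1 := hC (n + t)
  have h2 : (kk b y (n + t) : ℝ) ≤ N b (Real.sqrt d) 0 n + (t + 1) := by
    have h3 : kk b y (n + t) = ∑ i ∈ range (t + 1), nz b y i + ∑ k ∈ range n, nz b y (t + (k + 1)) := by
      unfold kk
      rw [show n + t + 1 = (t + 1) + n by ring, sum_range_add]
      congr 1
      refine sum_congr rfl fun k _ => ?_
      congr 1
      ring
    have h4 : ∑ i ∈ range (t + 1), nz b y i ≤ t + 1 := by
      calc ∑ i ∈ range (t + 1), nz b y i ≤ ∑ i ∈ range (t + 1), 1 :=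
            sum_le_sum fun i _ => by unfold nz; split_ifs <;> omega
        _ = t + 1 := by simp
    have h5 : ∑ k ∈ range n, nz b y (t + (k + 1)) = N b (Real.sqrt d) 0 n := by
      unfold N
      rw [card_filter]
      refine sum_congr rfl fun k _ => ?_
      rw [← hdig]
      unfold nz
      by_cases h : 1 ≤ x b y (t + (k + 1))
      · rw [if_pos h, if_pos]
        exact_mod_cast (by omega : x b y (t + (k + 1)) ≠ 0)
      · rw [if_neg h, if_neg]
        push Not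
        exact_mod_cast (by omega : x b y (t + (k + 1)) = 0)
    have h6 : kk b y (n + t) ≤ N b (Real.sqrt d) 0 n + (t + 1) := by omega
    exact_mod_cast h6
  have h3 : Real.sqrt n ≤ Real.sqrt ((n + t : ℕ) : ℝ) := by
    apply Real.sqrt_le_sqrt
    push_cast
    linarith [Nat.cast_nonneg (α := ℝ) t]
  have h4 : Real.sqrt (11 / (5 * (J b 1 : ℝ))) * Real.sqrt n ≤
      Real.sqrt (11 / (5 * (J b 1 : ℝ))) * Real.sqrt ((n + t : ℕ) : ℝ) :=
    mul_le_mul_of_nonneg_left h3 (Real.sqrt_nonneg _)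
  have h5 : Real.sqrt (11 / (5 * (J b 1 : ℝ))) * Real.sqrt ((n + t : ℕ) : ℝ) - C ≤
    kk b y (n + t) := h1
  linarith

lemma J_one' {b : ℕ} (hb : 2 ≤ b) :
    (11 : ℝ) / (5 * (J b 1 : ℝ)) = 11 * (Nat.gcd b 2 : ℕ) / 10 := by
  rw [J_one hb]
  have h1 : Nat.gcd b 2 = 1 ∨ Nat.gcd b 2 = 2 := by
    have h2 := Nat.gcd_dvd_right b 2
    exact (Nat.dvd_prime Nat.prime_two).mp h2
  rcases h1 with h | h <;> rw [h] <;> norm_num

/-- **The number of nonzero digits of quadratic irrationals.** -/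
theorem result :
    (∀ b : ℕ, 2 ≤ b → ∀ (A : ℕ) (B C : ℤ) (ξ : ℝ), 1 ≤ A → Irrational ξ →
      (A : ℝ) * ξ ^ 2 + B * ξ + C = 0 → ∀ ε : ℝ, 0 < ε → ∃ n0 : ℕ, ∀ n : ℕ, n0 ≤ n →
        (Real.sqrt (11 / (5 * (J b A : ℝ))) - ε) * Real.sqrt n ≤ N b ξ 0 n ∧
        (Real.sqrt (11 / (5 * (J b A : ℝ))) - ε) * Real.sqrt n ≤ N b ξ (b - 1) n) ∧
    (∀ b d : ℕ, 2 ≤ b → ¬ IsSquare d → ∃ K : ℝ, ∀ n : ℕ,
      Real.sqrt (11 * (Nat.gcd b 2 : ℕ) / 10) * Real.sqrt n - K ≤ N b (Real.sqrt d) 0 n) ∧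
    (∀ b : ℕ, 2 ≤ b → J b 1 = 2 / Nat.gcd b 2) := by
  refine ⟨?_, ?_, fun b hb => J_one hb⟩
  · intro b hb A B C ξ hA hirr hq ε hε
    obtain ⟨n1, h1⟩ := nonzero hb hA hirr hq ε hε
    obtain ⟨n2, h2⟩ := nonzero (ξ := -ξ) (Bc := -B) (C := C) hb hA hirr.neg
      (by push_cast; linarith) ε hε
    refine ⟨max n1 n2, fun n hn => ⟨h1 n ((le_max_left _ _).trans hn), ?_⟩⟩
    have h3 := h2 n ((le_max_right _ _).trans hn)
    rwa [N_neg hb hirr] at h3
  · intro b d hb hd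
    obtain ⟨K, hK⟩ := nonzero_sqrt hb hd
    refine ⟨K, fun n => ?_⟩
    have := hK n
    rwa [J_one' hb] at this

end Pool.Agent.Results.MP_175f55_nt.NonzeroDigits
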