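import Pool.Agent.U792.ND.Sgn

/-!
# All expansions with bounded digits of numbers like `√2 / 7`: nonzero digits, changes of digits, and
# digits different from a given one

Let `b ≥ 2` and let `ξ` be a real zero of `A X^2 + B X + C` such that some prime `q` divides `A` and `B`,
but neither `C` nor `b` (for instance `ξ = √2 / 7` and `b = 10`, `q = 7`).

* Every expansion `ξ = ∑ y_i b^(-i)` with integers `|y_i| ≤ H` has for every `n` at least
  `√(11 / (5 J)) √n - (276 A H^2 + 146 |B| H + 143)` nonzero digits `y_i`, `i ≤ n`, where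
  `J = ⌊log_b ((2 A / gcd (b, 2 A)) H^2 + b - 1)⌋`.
* If `q` does not divide `b - 1`, then for every digit `a` at least `c √n - K` of the first `n` digits of
  the usual expansion of `ξ` are different from `a`, and at least `c √n - K` of them differ from the next
  digit, with explicit `c`.

Proof. With the carry `T_m` of the square of the expansion the number `A T_m + B E_m` is an integer, and not
zero modulo `q`. The logarithm of its absolute value is a potential: it grows by one where no pair of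
nonzero digits has places with sum `m`, and is bounded by the logarithm of the number of nonzero digits.
-/

set_option autoImplicit false
set_option linter.unusedSectionVars false

open Finset

namespace Pool.Agent.Results.MP_175f55_nt.SignedDigits

open Pool.Agent.U792.ND

/-- `ξ` is a zero of `A X^2 + B X + C`, and the prime `q` divides `A` and `B`, but neither `C` nor `b` -/
def Den (q b A : ℕ) (B C : ℤ) (ξ : ℝ) : Prop :=
  (A : ℝ) * ξ ^ 2 + B * ξ + C = 0 ∧ 1 ≤ A ∧ q.Prime ∧ q ∣ A ∧ (q : ℤ) ∣ B ∧ ¬ (q : ℤ) ∣ C ∧ ¬ q ∣ b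

/-- the integer part of the logarithm to the base `b` of `(2 A / gcd (b, 2 A)) H^2 + b - 1` -/
def J (b A H : ℕ) : ℕ := Nat.log b (2 * A / Nat.gcd b (2 * A) * H ^ 2 + (b - 1))

/-- the `k`-th digit of `ξ` after the point in base `b` (`k ≥ 1`) -/
noncomputable def dig (b : ℕ) (ξ : ℝ) (k : ℕ) : ℤ := ⌊ξ * (b : ℝ) ^ k⌋ % (b : ℤ)

lemma finish' {κ2 K C3 n : ℝ} (hκ : 0 ≤ κ2) (hK : 0 ≤ K) (hC : 0 ≤ C3)
    (h : κ2 * n ≤ K ^ 2 + C3 * (K + 1)) :
    Real.sqrt κ2 * Real.sqrt n ≤ K + (C3 / 2 + 1) := by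
  rw [← Real.sqrt_mul hκ]
  apply Real.sqrt_le_left (by positivity) |>.mpr
  nlinarith

lemma kk_eq (y : ℕ → ℤ) (n : ℕ) :
    Sg.kk y n = ((range (n + 1)).filter (fun i => y i ≠ 0)).card := by
  unfold Sg.kk Sg.nz
  rw [card_filter]
  refine sum_congr rfl fun i _ => ?_
  by_cases h : y i = 0
  · rw [if_pos h, if_neg (by simpa using h)]
  · rw [if_neg h, if_pos h]

/-- the general inequality, with bounded errors -/
lemma core {b A H q : ℕ} {B C : ℤ} {ξ : ℝ} (hb : 2 ≤ b) (hH1 : 1 ≤ H) (hD : Den q b A B C ξ)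
    {y : ℕ → ℤ} (hH : ∀ i, |y i| ≤ H) (hE : ∀ N, |Sg.E b ξ y N| ≤ H) (n : ℕ) :
    Real.sqrt (11 / (5 * (J b A H : ℝ))) * Real.sqrt n -
      (276 * A * H ^ 2 + 146 * B.natAbs * H + 143) ≤ Sg.kk y n := by
  obtain ⟨hq, hA, hqp, hqA, hqB, hqC, hqb⟩ := hD
  have h1 := Sg.sg_main hH hE hb hA hH1 hq (Sg.Z_ne hqp hqA hqB hqC hqb) n
  have h2 := finish' (κ2 := 11 / (5 * (J b A H : ℝ))) (n := n)
    (C3 := 292 * B.natAbs * H + 552 * A * H ^ 2 + 284) (by positivity) (Nat.cast_nonneg _)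
    (by positivity) h1
  linarith

lemma BB_real {b : ℕ} (hb : 2 ≤ b) (y : ℕ → ℤ) (N : ℕ) :
    (Sg.BB b y N : ℝ) = (b : ℝ) ^ N * ∑ i ∈ range (N + 1), (y i : ℝ) / (b : ℝ) ^ i := by
  have hb0 : (b : ℝ) ≠ 0 := by positivity
  induction N with
  | zero => simp [Sg.BB]
  | succ N ih =>
    rw [Sg.BB, sum_range_succ]
    push_cast
    rw [ih, pow_succ]
    field_simp

/-- the errors of a convergent expansion -/
lemma E_le {b H : ℕ} {ξ : ℝ} (hb : 2 ≤ b) {y : ℕ → ℤ} (hH : ∀ i, |y i| ≤ H)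
    (hs : HasSum (fun i => (y i : ℝ) / (b : ℝ) ^ i) ξ) (N : ℕ) : |Sg.E b ξ y N| ≤ H := by
  have hbR : (2 : ℝ) ≤ b := by exact_mod_cast hb
  have hb0 : (0 : ℝ) < b := by linarith
  have hHR : (0 : ℝ) ≤ H := Nat.cast_nonneg _
  have h1 := (hasSum_nat_add_iff' (N + 1)).mpr hs
  have h2 : HasSum (fun i : ℕ => (H * (1 / (b : ℝ)) ^ (N + 1)) * (1 / (b : ℝ)) ^ i)
      ((H * (1 / (b : ℝ)) ^ (N + 1)) * (1 - 1 / (b : ℝ))⁻¹) := by
    apply HasSum.mul_left
    apply hasSum_geometric_of_lt_one (by positivity)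
    rw [div_lt_one hb0]
    linarith
  have h3 := h1.norm_le_of_bounded h2 (fun i => by
    rw [norm_div, norm_pow, Real.norm_natCast, Real.norm_eq_abs, one_div_pow, one_div_pow]
    have h4 : |(y (i + (N + 1)) : ℝ)| ≤ H := by exact_mod_cast hH _
    rw [show (b : ℝ) ^ (i + (N + 1)) = (b : ℝ) ^ (N + 1) * (b : ℝ) ^ i by rw [add_comm, pow_add]]
    have h5 : (0 : ℝ) < (b : ℝ) ^ (N + 1) * (b : ℝ) ^ i := by positivity
    rw [div_le_iff₀ h5]
    refine h4.trans (le_of_eq ?_)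
    field_simp)
  have h4 : Sg.E b ξ y N =
      (b : ℝ) ^ N * (ξ - ∑ i ∈ range (N + 1), (y i : ℝ) / (b : ℝ) ^ i) := by
    unfold Sg.E
    rw [BB_real hb]
    ring
  rw [Real.norm_eq_abs] at h3
  rw [h4, abs_mul, abs_of_pos (by positivity : (0 : ℝ) < (b : ℝ) ^ N)]
  have h5 : (b : ℝ) ^ N * (H * (1 / (b : ℝ)) ^ (N + 1) * (1 - 1 / (b : ℝ))⁻¹) = H / (b - 1) := by
    have h6 : (b : ℝ) - 1 ≠ 0 := by linarith
    have h7 : (1 - 1 / (b : ℝ)) = (b - 1) / b := by field_simp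
    rw [h7, pow_succ, one_div_pow]
    field_simp
  calc (b : ℝ) ^ N * |ξ - ∑ i ∈ range (N + 1), (y i : ℝ) / (b : ℝ) ^ i| ≤
        (b : ℝ) ^ N * (H * (1 / (b : ℝ)) ^ (N + 1) * (1 - 1 / (b : ℝ))⁻¹) :=
        mul_le_mul_of_nonneg_left h3 (by positivity)
    _ = H / (b - 1) := h5
    _ ≤ H := by
      rw [div_le_iff₀ (by linarith)]
      nlinarith

/-- the errors of the usual expansion -/
lemma dig_rec {b : ℕ} (hb : 2 ≤ b) (ξ : ℝ) (k : ℕ) :
    ξ * (b : ℝ) ^ (k + 1) - ⌊ξ * (b : ℝ) ^ (k + 1)⌋ =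
      b * (ξ * (b : ℝ) ^ k - ⌊ξ * (b : ℝ) ^ k⌋) - dig b ξ (k + 1) := by
  have hbR : (2 : ℝ) ≤ b := by exact_mod_cast hb
  have hb0 : (0 : ℤ) < b := by exact_mod_cast (by omega : 0 < b)
  set F := ⌊ξ * (b : ℝ) ^ k⌋ with hF
  set G := ⌊ξ * (b : ℝ) ^ (k + 1)⌋ with hG
  have h1 : (F : ℝ) ≤ ξ * (b : ℝ) ^ k := Int.floor_le _
  have h2 : ξ * (b : ℝ) ^ k < F + 1 := Int.lt_floor_add_one _
  have h3 : (G : ℝ) ≤ ξ * (b : ℝ) ^ (k + 1) := Int.floor_le _
  have h4 : ξ * (b : ℝ) ^ (k + 1) < G + 1 := Int.lt_floor_add_one _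
  rw [pow_succ, ← mul_assoc] at h3 h4
  have h5 : b * F ≤ G := by
    have : (((b : ℤ) * F : ℤ) : ℝ) < ((G + 1 : ℤ) : ℝ) := by
      push_cast
      nlinarith
    have h6 : (b : ℤ) * F < G + 1 := by exact_mod_cast this
    omega
  have h6 : G < b * F + b := by
    have : ((G : ℤ) : ℝ) < (((b : ℤ) * F + b : ℤ) : ℝ) := by
      push_cast
      nlinarith
    exact_mod_cast this
  have h7 : dig b ξ (k + 1) = G - b * F := by
    unfold dig
    rw [← hG]
    have h8 : G = (G - b * F) + b * F := by ring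
    rw [h8, Int.add_mul_emod_self_left, Int.emod_eq_of_lt (by omega) (by omega)]
    ring
  rw [h7]
  push_cast
  rw [pow_succ]
  ring

lemma fr_bound {b : ℕ} (ξ : ℝ) (k : ℕ) : 0 ≤ ξ * (b : ℝ) ^ k - ⌊ξ * (b : ℝ) ^ k⌋ ∧
    ξ * (b : ℝ) ^ k - ⌊ξ * (b : ℝ) ^ k⌋ < 1 := by
  have h1 := Int.floor_le (ξ * (b : ℝ) ^ k)
  have h2 := Int.lt_floor_add_one (ξ * (b : ℝ) ^ k)
  constructor <;> linarith

lemma dig_bound {b : ℕ} (hb : 2 ≤ b) (ξ : ℝ) (k : ℕ) : 0 ≤ dig b ξ k ∧ dig b ξ k < b := by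
  have hb0 : (0 : ℤ) < b := by exact_mod_cast (by omega : 0 < b)
  exact ⟨Int.emod_nonneg _ hb0.ne', Int.emod_lt_of_pos _ hb0⟩

/-- the quadratic equation of the fractional part -/
lemma Den_fract {q b A : ℕ} {B C : ℤ} {ξ : ℝ} (hD : Den q b A B C ξ) (m : ℤ) :
    Den q b A (B + 2 * A * m) (C + B * m + A * m ^ 2) (ξ - m) := by
  obtain ⟨hq, hA, hqp, hqA, hqB, hqC, hqb⟩ := hD
  have hqA' : (q : ℤ) ∣ (A : ℤ) := by exact_mod_cast hqA
  refine ⟨?_, hA, hqp, hqA, ?_, ?_, hqb⟩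
  · push_cast
    linear_combination hq
  · exact dvd_add hqB (Dvd.dvd.mul_right (Dvd.dvd.mul_left hqA' _) _)
  · intro h
    apply hqC
    have h1 : C = (C + B * m + A * m ^ 2) - (B * m + A * m ^ 2) := by ring
    rw [h1]
    exact dvd_sub h (dvd_add (Dvd.dvd.mul_right hqB _) (Dvd.dvd.mul_right hqA' _))

lemma Den_mul {q b A : ℕ} {B C : ℤ} {ξ : ℝ} (hD : Den q b A B C ξ) {β : ℕ} (hβ : ¬ q ∣ β) :
    Den q b A (B * β) (C * β ^ 2) (β * ξ) := by
  obtain ⟨hq, hA, hqp, hqA, hqB, hqC, hqb⟩ := hD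
  have hqp' : Prime (q : ℤ) := Nat.prime_iff_prime_int.mp hqp
  refine ⟨?_, hA, hqp, hqA, Dvd.dvd.mul_right hqB _, ?_, hqb⟩
  · push_cast
    linear_combination ((β : ℝ) ^ 2) * hq
  · intro h
    rcases hqp'.dvd_or_dvd h with h1 | h1
    · exact hqC h1
    · exact hβ (by exact_mod_cast hqp'.dvd_of_dvd_pow h1)

lemma Den_sub {q b A : ℕ} {B C : ℤ} {ξ : ℝ} (hD : Den q b A B C ξ) {β : ℕ} (hβ : ¬ q ∣ β)
    (hβ0 : 1 ≤ β) (a : ℤ) :
    Den q b (A * β ^ 2) (2 * A * a * β + B * β ^ 2) (A * a ^ 2 + B * a * β + C * β ^ 2)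
      (ξ - a / β) := by
  obtain ⟨hq, hA, hqp, hqA, hqB, hqC, hqb⟩ := hD
  have hqp' : Prime (q : ℤ) := Nat.prime_iff_prime_int.mp hqp
  have hqA' : (q : ℤ) ∣ (A : ℤ) := by exact_mod_cast hqA
  have hβR : (β : ℝ) ≠ 0 := by positivity
  refine ⟨?_, Nat.mul_pos hA (by positivity), hqp, Dvd.dvd.mul_right hqA _, ?_, ?_, hqb⟩
  · push_cast
    have e : (A : ℝ) * β ^ 2 * (ξ - a / β) ^ 2 + (2 * A * a * β + B * β ^ 2) * (ξ - a / β) +
        (A * a ^ 2 + B * a * β + C * β ^ 2) = β ^ 2 * (A * ξ ^ 2 + B * ξ + C) := by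
      field_simp
      ring
    rw [e, hq, mul_zero]
  · refine dvd_add ?_ (Dvd.dvd.mul_right hqB _)
    exact Dvd.dvd.mul_right (Dvd.dvd.mul_right (Dvd.dvd.mul_left hqA' _) _) _
  · intro h
    have h1 : (q : ℤ) ∣ C * (β : ℤ) ^ 2 := by
      have h2 : C * (β : ℤ) ^ 2 = (A * a ^ 2 + B * a * β + C * β ^ 2) -
          (A * a ^ 2 + B * a * β) := by ring
      rw [h2]
      exact dvd_sub h (dvd_add (Dvd.dvd.mul_right hqA' _)
        (Dvd.dvd.mul_right (Dvd.dvd.mul_right hqB _) _))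
    rcases hqp'.dvd_or_dvd h1 with h2 | h2
    · exact hqC h2
    · exact hβ (by exact_mod_cast hqp'.dvd_of_dvd_pow h2)

/-- digits different from `a` -/
lemma digits_ne {b A q a : ℕ} {B C : ℤ} {ξ : ℝ} (hb : 2 ≤ b) (hD : Den q b A B C ξ)
    (hqb : ¬ q ∣ b - 1) (ha : a < b) : ∃ K : ℝ, ∀ n : ℕ,
      Real.sqrt (11 / (5 * (J b (A * (b - 1) ^ 2) (max a (b - 1 - a)) : ℝ))) * Real.sqrt n - K ≤
        ((range n).filter (fun k => dig b ξ (k + 1) ≠ a)).card := by
  have hbR : (2 : ℝ) ≤ b := by exact_mod_cast hb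
  obtain ⟨β, hβ⟩ : ∃ β, b - 1 = β := ⟨_, rfl⟩
  have hβb : (b : ℝ) = β + 1 := by
    have : b = β + 1 := by omega
    exact_mod_cast this
  have hβ1 : 1 ≤ β := by omega
  have hβR : (0 : ℝ) < β := by exact_mod_cast hβ1
  rw [hβ] at hqb ⊢
  set H := max a (β - a) with hHdef
  have hH1 : 1 ≤ H := by
    rw [hHdef]
    rcases Nat.eq_zero_or_pos a with h | h
    · exact le_max_of_le_right (by omega)
    · exact le_max_of_le_left h
  have haH : (a : ℤ) ≤ H := by exact_mod_cast le_max_left _ _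
  have hbH : (β : ℤ) - a ≤ H := by
    have h1 : β - a ≤ H := le_max_right _ _
    omega
  have hD' := Den_sub (Den_fract hD ⌊ξ⌋) hqb hβ1 (a : ℤ)
  set y : ℕ → ℤ := fun k => if k = 0 then 0 else dig b ξ k - a with hy
  have hyH : ∀ i, |y i| ≤ H := by
    intro i
    simp only [hy]
    split_ifs
    · rw [abs_zero]; positivity
    · obtain ⟨h1, h2⟩ := dig_bound hb ξ i
      rw [abs_le]
      constructor
      · linarith
      · omega
  have hE : ∀ N, Sg.E b (ξ - (⌊ξ⌋ : ℤ) - ((a : ℤ) : ℝ) / β) y N =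
      (ξ * (b : ℝ) ^ N - ⌊ξ * (b : ℝ) ^ N⌋) - a / β := by
    intro N
    induction N with
    | zero =>
      unfold Sg.E
      simp only [Sg.BB, hy]
      norm_num
    | succ N ih =>
      rw [Sg.E_succ, ih, dig_rec hb]
      simp only [hy]
      rw [if_neg (by omega)]
      push_cast
      have e : (b : ℝ) * (a / β) = a + a / β := by
        rw [hβb]; field_simp
      linear_combination -e
  have hE' : ∀ N, |Sg.E b (ξ - (⌊ξ⌋ : ℤ) - ((a : ℤ) : ℝ) / β) y N| ≤ H := by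
    intro N
    rw [hE]
    obtain ⟨h1, h2⟩ := fr_bound (b := b) ξ N
    have h3 : (0 : ℝ) ≤ a / β := by positivity
    have h4 : (a : ℝ) / β ≤ 1 := by
      rw [div_le_one hβR]
      exact_mod_cast (by omega : a ≤ β)
    have h5 : (1 : ℝ) ≤ H := by exact_mod_cast hH1
    rw [abs_le]
    constructor <;> linarith
  refine ⟨_, fun n => (core hb hH1 hD' hyH hE' n).trans ?_⟩
  rw [kk_eq]
  have h1 : ((range (n + 1)).filter (fun i => y i ≠ 0)).card ≤
      ((range n).filter (fun k => dig b ξ (k + 1) ≠ a)).card := by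
    apply card_le_card_of_injOn (fun i => i - 1)
    · intro i hi
      simp only [coe_filter, mem_range, Set.mem_ofPred_eq] at hi ⊢
      obtain ⟨h1, h2⟩ := hi
      have hi0 : i ≠ 0 := by
        intro h
        apply h2
        simp only [hy]
        rw [if_pos h]
      have h3 : i - 1 + 1 = i := by omega
      refine ⟨by omega, ?_⟩
      rw [h3]
      intro h4
      apply h2
      simp only [hy]
      rw [if_neg hi0, h4, sub_self]
    · intro i hi j hj hij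
      simp only [coe_filter, mem_range, Set.mem_ofPred_eq] at hi hj
      have hi0 : i ≠ 0 := by
        intro h
        apply hi.2
        simp only [hy]
        rw [if_pos h]
      have hj0 : j ≠ 0 := by
        intro h
        apply hj.2
        simp only [hy]
        rw [if_pos h]
      simp only at hij
      omega
  exact_mod_cast h1

/-- changes of digits -/
lemma changes {b A q : ℕ} {B C : ℤ} {ξ : ℝ} (hb : 2 ≤ b) (hD : Den q b A B C ξ)
    (hqb : ¬ q ∣ b - 1) : ∃ K : ℝ, ∀ n : ℕ,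
      Real.sqrt (11 / (5 * (J b A (b - 1) : ℝ))) * Real.sqrt n - K ≤
        ((range n).filter (fun k => dig b ξ (k + 1) ≠ dig b ξ (k + 2))).card := by
  have hbR : (2 : ℝ) ≤ b := by exact_mod_cast hb
  obtain ⟨β, hβ⟩ : ∃ β, b - 1 = β := ⟨_, rfl⟩
  have hβb : (b : ℝ) = β + 1 := by
    have : b = β + 1 := by omega
    exact_mod_cast this
  have hβ1 : 1 ≤ β := by omega
  rw [hβ] at hqb ⊢
  have hD' := Den_mul (Den_fract hD ⌊ξ⌋) hqb
  set y : ℕ → ℤ := fun k => if k = 0 then dig b ξ 1 else dig b ξ (k + 1) - dig b ξ k with hy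
  have hyH : ∀ i, |y i| ≤ β := by
    intro i
    simp only [hy]
    obtain ⟨h1, h2⟩ := dig_bound hb ξ 1
    obtain ⟨h3, h4⟩ := dig_bound hb ξ i
    obtain ⟨h5, h6⟩ := dig_bound hb ξ (i + 1)
    split_ifs
    · rw [abs_le]; constructor <;> omega
    · rw [abs_le]; constructor <;> omega
  have hE : ∀ N, Sg.E b (β * (ξ - (⌊ξ⌋ : ℤ))) y N =
      β * (ξ * (b : ℝ) ^ N - ⌊ξ * (b : ℝ) ^ N⌋) - dig b ξ (N + 1) := by
    intro N
    induction N with
    | zero =>
      unfold Sg.E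
      simp only [Sg.BB, hy]
      norm_num
    | succ N ih =>
      rw [Sg.E_succ, ih, dig_rec hb]
      simp only [hy]
      rw [if_neg (by omega)]
      push_cast
      rw [hβb]
      ring
  have hE' : ∀ N, |Sg.E b (β * (ξ - (⌊ξ⌋ : ℤ))) y N| ≤ β := by
    intro N
    rw [hE]
    have h0 := dig_rec hb ξ N
    obtain ⟨h1, h2⟩ := fr_bound (b := b) ξ N
    obtain ⟨h3, h4⟩ := fr_bound (b := b) ξ (N + 1)
    have e : β * (ξ * (b : ℝ) ^ N - ⌊ξ * (b : ℝ) ^ N⌋) - dig b ξ (N + 1) =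
        (ξ * (b : ℝ) ^ (N + 1) - ⌊ξ * (b : ℝ) ^ (N + 1)⌋) -
          (ξ * (b : ℝ) ^ N - ⌊ξ * (b : ℝ) ^ N⌋) := by
      rw [h0, hβb]; ring
    rw [e]
    have h5 : (1 : ℝ) ≤ β := by exact_mod_cast hβ1
    rw [abs_le]
    constructor <;> linarith
  refine ⟨(276 * A * β ^ 2 + 146 * ((B + 2 * A * ⌊ξ⌋) * β).natAbs * β + 143 : ℝ) + 1,
    fun n => ?_⟩
  have h0 := core hb hβ1 hD' hyH hE' n
  rw [kk_eq] at h0
  have h1 : ((range (n + 1)).filter (fun i => y i ≠ 0)).card ≤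
      ((range n).filter (fun k => dig b ξ (k + 1) ≠ dig b ξ (k + 2))).card + 1 := by
    have h2 : (range (n + 1)).filter (fun i => y i ≠ 0) ⊆
        insert 0 (((range n).filter (fun k => dig b ξ (k + 1) ≠ dig b ξ (k + 2))).image
          (fun k => k + 1)) := by
      intro i hi
      rw [mem_filter, mem_range] at hi
      rw [mem_insert, mem_image]
      rcases Nat.eq_zero_or_pos i with h | h
      · exact Or.inl h
      · right
        refine ⟨i - 1, ?_, by omega⟩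
        rw [mem_filter, mem_range]
        refine ⟨by omega, ?_⟩
        intro h3
        apply hi.2
        simp only [hy]
        rw [if_neg (by omega)]
        have e1 : i - 1 + 1 = i := by omega
        have e2 : i - 1 + 2 = i + 1 := by omega
        rw [e1, e2] at h3
        rw [h3, sub_self]
    refine (card_le_card h2).trans ((card_insert_le _ _).trans ?_)
    have h3 := card_image_le (s := (range n).filter (fun k => dig b ξ (k + 1) ≠ dig b ξ (k + 2)))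
      (f := fun k => k + 1)
    omega
  have h2 : ((((range (n + 1)).filter (fun i => y i ≠ 0)).card : ℕ) : ℝ) ≤
      (((range n).filter (fun k => dig b ξ (k + 1) ≠ dig b ξ (k + 2))).card : ℝ) + 1 := by
    exact_mod_cast h1
  linarith

/-- **Expansions with bounded digits, digits different from a given digit, changes of digits.** -/
theorem result (b A q : ℕ) (B C : ℤ) (ξ : ℝ) (hb : 2 ≤ b) (hD : Den q b A B C ξ) :
    (∀ (H : ℕ) (y : ℕ → ℤ), 1 ≤ H → (∀ i, |y i| ≤ H) →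
      HasSum (fun i => (y i : ℝ) / (b : ℝ) ^ i) ξ → ∀ n : ℕ,
        Real.sqrt (11 / (5 * (J b A H : ℝ))) * Real.sqrt n -
          (276 * A * H ^ 2 + 146 * B.natAbs * H + 143) ≤
            ((range (n + 1)).filter (fun i => y i ≠ 0)).card) ∧
    (¬ q ∣ b - 1 →
      (∀ a : ℕ, a < b → ∃ K : ℝ, ∀ n : ℕ,
        Real.sqrt (11 / (5 * (J b (A * (b - 1) ^ 2) (max a (b - 1 - a)) : ℝ))) * Real.sqrt n - K ≤
          ((range n).filter (fun k => dig b ξ (k + 1) ≠ a)).card) ∧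
      ∃ K : ℝ, ∀ n : ℕ, Real.sqrt (11 / (5 * (J b A (b - 1) : ℝ))) * Real.sqrt n - K ≤
        ((range n).filter (fun k => dig b ξ (k + 1) ≠ dig b ξ (k + 2))).card) := by
  refine ⟨fun H y hH1 hH hs n => ?_, fun hqb => ⟨fun a ha => digits_ne hb hD hqb ha,
    changes hb hD hqb⟩⟩
  rw [← kk_eq]
  exact core hb hH1 hD hH (E_le hb hH hs) n

end Pool.Agent.Results.MP_175f55_nt.SignedDigits
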